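import Pool.Agent.Q281.Pat.Ex
import Pool.Agent.Q281.Pat.Poly

/-!
# The feasibility set of the words 1, 10, 1100 is not semi-algebraic

For a measurable `f : [0,1] → [0,1]` let `X(t)` be the integral of `f` over `[0,t]` and `D(t)` the
integral of `1 - f` over `[t,1]`.  Then `ρ_1 = X(1)`, `ρ_10 = 2 ∫ f D` and
`ρ_1100 = 12 ∫ f X D²`.  On the slice `ρ_1 = 1/2` both `X` and `D` are at most `1/2`, and for
`0 < a ≤ 1/4` the pointwise inequalities `X D² - 2aD ≥ X/4 - a` (for `X ≤ 2a`) and
`X D² - 2aD ≥ - a²/X` give `ρ_1100 ≥ 12 a ρ_10 - 18 a² - 12 a² log (1/(4a))`, with equality for the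
function whose path satisfies `X D = a` between an initial piece `f = 1` and a final piece `f = 0`.
So the lower boundary of the slice is the curve `(2a(1+l), 6a²(1+2l))`, `l = log (1/(4a))`, and every
polynomial vanishing on it is zero (compare the orders of growth of the monomials as `a → 0`).
-/

set_option autoImplicit false

open MvPolynomial Filter Topology

namespace Pool.Agent.Results.MP_76c07a_co.NotSemialgebraic

open Pool.Agent.Q281.Pat

/-- The feasibility set of the words `W 0, ..., W (k-1)`: the vectors of their densities, for the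
measurable functions `f` with values in `[0,1]`. -/
def feasibilitySet {k : ℕ} (W : Fin k → List Bool) : Set (Fin k → ℝ) :=
  {v | ∃ f : ℝ → ℝ, Adm f ∧ ∀ i, v i = dens f (W i)}

/-- A finite union of sets given by one polynomial equation and finitely many strict polynomial
inequalities. -/
def IsSemialgebraic {k : ℕ} (S : Set (Fin k → ℝ)) : Prop :=
  ∃ (N : ℕ) (p : Fin N → MvPolynomial (Fin k) ℝ) (q : Fin N → Finset (MvPolynomial (Fin k) ℝ)),
    ∀ x, x ∈ S ↔ ∃ i, eval x (p i) = 0 ∧ ∀ r ∈ q i, 0 < eval x r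

noncomputable def slice (p : MvPolynomial (Fin 3) ℝ) : MvPolynomial (Fin 2) ℝ :=
  aeval ![C (1 / 2), X 0, X 1] p

theorem eval_slice (p : MvPolynomial (Fin 3) ℝ) (u v : ℝ) :
    eval ![u, v] (slice p) = eval ![1 / 2, u, v] p := by
  unfold slice
  rw [← MvPolynomial.coe_aeval_eq_eval, ← MvPolynomial.coe_aeval_eq_eval]
  have h : (aeval ![u, v] : MvPolynomial (Fin 2) ℝ →ₐ[ℝ] ℝ).comp
      (aeval ![C (1 / 2), X 0, X 1] : MvPolynomial (Fin 3) ℝ →ₐ[ℝ] MvPolynomial (Fin 2) ℝ)
      = aeval ![1 / 2, u, v] := by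
    apply MvPolynomial.algHom_ext
    intro i
    fin_cases i <;> simp
  exact congrArg (fun g => g p) h

/-- the words 1, 10, 1100 -/
def words : Fin 3 → List Bool := ![[true], [true, false], [true, true, false, false]]

theorem mem_curve {l : ℝ} (hl : 0 < l) : ![1 / 2, m l, y l] ∈ feasibilitySet words := by
  have ha : 0 < Real.exp (-l) / 4 := by positivity
  have ha2 : Real.exp (-l) / 4 ≤ 1 / 4 := by
    have : Real.exp (-l) ≤ 1 := by
      rw [Real.exp_le_one_iff]
      linarith
    linarith
  have hlog : Real.log (1 / (4 * (Real.exp (-l) / 4))) = l := by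
    rw [mul_div_cancel₀ _ (by norm_num), one_div, Real.log_inv, Real.log_exp, neg_neg]
  refine ⟨fa (Real.exp (-l) / 4), adm_fa ha, fun i => ?_⟩
  fin_cases i
  · exact (dens1_fa ha ha2).symm
  · change m l = dens (fa (Real.exp (-l) / 4)) [true, false]
    rw [dens2_fa ha ha2, hlog]
    rfl
  · change y l = dens (fa (Real.exp (-l) / 4)) [true, true, false, false]
    rw [dens3_fa ha ha2, hlog]
    rfl

theorem below {l z : ℝ} (hl : 0 < l) (h : ![1 / 2, m l, z] ∈ feasibilitySet words) : y l ≤ z := by
  have ha : 0 < Real.exp (-l) / 4 := by positivity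
  have ha2 : Real.exp (-l) / 4 ≤ 1 / 4 := by
    have : Real.exp (-l) ≤ 1 := by
      rw [Real.exp_le_one_iff]
      linarith
    linarith
  have hlog : Real.log (1 / (4 * (Real.exp (-l) / 4))) = l := by
    rw [mul_div_cancel₀ _ (by norm_num), one_div, Real.log_inv, Real.log_exp, neg_neg]
  obtain ⟨f, hf, hv⟩ := h
  have h0 : (1 / 2 : ℝ) = dens f [true] := hv 0
  have h1 : m l = dens f [true, false] := hv 1
  have h2 : z = dens f [true, true, false, false] := hv 2
  rw [dens_one] at h0
  have h3 := lower hf h0.symm ha ha2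
  rw [hlog, ← h1, ← h2] at h3
  unfold m at h3
  unfold y
  nlinarith

/-- The feasibility set of the words 1, 10, 1100 is not semi-algebraic. -/
theorem result : ¬ IsSemialgebraic (feasibilitySet ![[true], [true, false], [true, true, false, false]]) := by
  classical
  change ¬ IsSemialgebraic (feasibilitySet words)
  rintro ⟨N, p, q, hS⟩
  set T : Finset (Fin N) := Finset.univ.filter fun i => slice (p i) ≠ 0 with hT
  have hP : (∏ i ∈ T, slice (p i)) ≠ 0 := by
    rw [Finset.prod_ne_zero_iff]
    intro i hi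
    rw [hT, Finset.mem_filter] at hi
    exact hi.2
  refine no_poly _ hP ?_
  filter_upwards [eventually_gt_atTop 0] with l hl
  rw [map_prod, Finset.prod_eq_zero_iff]
  obtain ⟨i, hi, hq⟩ := (hS _).1 (mem_curve hl)
  refine ⟨i, ?_, by rw [eval_slice, hi]⟩
  rw [hT, Finset.mem_filter]
  refine ⟨Finset.mem_univ _, fun h0 => ?_⟩
  -- an open piece around a boundary point
  have hc : Continuous fun ε : ℝ => (![1 / 2, m l, y l - ε] : Fin 3 → ℝ) := by
    refine continuous_pi fun j => ?_
    fin_cases j
    · exact continuous_const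
    · exact continuous_const
    · exact continuous_const.sub continuous_id
  have hev : ∀ᶠ ε in 𝓝 (0 : ℝ), ∀ r ∈ q i, 0 < eval ![1 / 2, m l, y l - ε] r := by
    rw [Filter.eventually_all_finset]
    intro r hr
    have h1 : Continuous fun ε : ℝ => eval ![1 / 2, m l, y l - ε] r :=
      (MvPolynomial.continuous_eval r).comp hc
    have h2 : 0 < eval ![1 / 2, m l, y l - 0] r := by
      rw [sub_zero]
      exact hq r hr
    exact h1.continuousAt.eventually_const_lt h2
  have hev2 : ∀ᶠ ε in 𝓝[>] (0 : ℝ), ∀ r ∈ q i, 0 < eval ![1 / 2, m l, y l - ε] r :=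
    hev.filter_mono nhdsWithin_le_nhds
  obtain ⟨ε, h1, h2⟩ := (hev2.and self_mem_nhdsWithin).exists
  have h3 : ![1 / 2, m l, y l - ε] ∈ feasibilitySet words := by
    rw [hS]
    exact ⟨i, by rw [← eval_slice, h0, map_zero], h1⟩
  have h4 := below hl h3
  have h5 : (0 : ℝ) < ε := h2
  linarith

end Pool.Agent.Results.MP_76c07a_co.NotSemialgebraic
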